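import Pool.Agent.MP_fcd29e_an.H11.CS

/-!
The flat frames, from the solution of the Riemann–Hilbert problem and the smooth gauge.
-/

set_option autoImplicit false

open Complex Set Filter Topology Metric
open scoped ContDiff ComplexConjugate

namespace Pool.Agent.MP_fcd29e_an.H15

open Pool.Agent.MP_fcd29e_an.H11

namespace CFR

variable {ι : Type} [Fintype ι]

lemma b_inv_mul (hGR : SGR) (M g : EV ι) (hg : Orth g) (a b : V ι) :
    B (Ring.inverse (M * g) a) (Ring.inverse (M * g) b) =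
      B (Ring.inverse M a) (Ring.inverse M b) := by
  obtain ⟨hu, hi⟩ := (hGR.op ι).2.2.2.2 g hg
  rw [Ring.inverse_mul (Or.inr hu)]
  exact hi _ _

lemma orth_of_inv {M : EV ι} (hu : IsUnit M)
    (h : ∀ a b, B (Ring.inverse M a) (Ring.inverse M b) = B a b) : Orth M := fun u v => by
  have e : ∀ x, Ring.inverse M (M x) = x := fun x => by
    have := congrArg (fun T : EV ι => T x) (Ring.inverse_mul_cancel M hu)
    exact this
  rw [← h (M u) (M v), e, e]

lemma orth_left (hGR : SGR) {M G g : EV ι} (hg : Op1 g) (hM : Orth M) (h : M = G * g) :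
    Orth G := by
  obtain ⟨g', hg', h1, -⟩ := (hGR.op ι).2.2.1 g hg
  have : G = M * g' := by rw [h, mul_assoc, h1, mul_one]
  rw [this]
  exact (hGR.op ι).2.2.2.1 _ _ hM hg'.orth

lemma diff_b (hGR : SGR) {Y : ℂ → EV ι} {t : ℂ} (hY : DifferentiableAt ℂ Y t) (hu : IsUnit (Y t))
    (a b : V ι) :
    DifferentiableAt ℂ (fun z => B (Ring.inverse (Y z) a) (Ring.inverse (Y z) b)) t := by
  obtain ⟨Q, hQ⟩ := hGR.form ι
  have h1 : DifferentiableAt ℂ (fun z => Ring.inverse (Y z)) t := hY.inverse hu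
  simp only [← hQ]
  exact (Q.differentiableAt.comp t (h1.clm_apply (differentiableAt_const a))).clm_apply
    (h1.clm_apply (differentiableAt_const b))

lemma tend_b (hGR : SGR) {F : ℂ → EV ι} {l : Filter ℂ} (hF : Tendsto F l (𝓝 1)) (a b : V ι) :
    Tendsto (fun z => B (Ring.inverse (F z) a) (Ring.inverse (F z) b)) l (𝓝 (B a b)) := by
  have h1 : ContinuousAt
      (fun M : EV ι => B (Ring.inverse M a) (Ring.inverse M b)) (1 : EV ι) := by
    obtain ⟨Q, hQ⟩ := hGR.form ι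
    have h0 : ContinuousAt (Ring.inverse : EV ι → EV ι) 1 :=
      NormedRing.inverse_continuousAt (1 : (EV ι)ˣ)
    simp only [← hQ]
    exact (Q.continuous.continuousAt.comp (h0.clm_apply continuousAt_const)).clm_apply
      (h0.clm_apply continuousAt_const)
  have h2 := h1.tendsto.comp hF
  rw [Ring.inverse_one] at h2
  exact h2

lemma norm_tp {m : ℕ} (j : Fin m) : ‖tp j‖ < m := by
  have : ‖tp j‖ = (j : ℕ) := by simp [tp]
  rw [this]
  exact_mod_cast j.2

lemma tp_sep {m : ℕ} {i j : Fin m} (h : ‖tp i - tp j‖ < 1) : i = j := by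
  have e : tp i - tp j = I * (((i : ℕ) : ℤ) - ((j : ℕ) : ℤ) : ℤ) := by
    simp only [tp]; push_cast; ring
  rw [e, norm_mul, norm_I, one_mul, Complex.norm_intCast] at h
  have h2 : |((i : ℕ) : ℤ) - ((j : ℕ) : ℤ)| < 1 := by exact_mod_cast h
  have h3 := Int.abs_lt_one_iff.1 h2
  exact Fin.ext (by omega)

lemma dbr_one (t : ℂ) : dbr (fun _ : ℂ => (1 : EV ι)) t = 0 := by
  simp [dbr]

/-- The function at infinity. -/
noncomputable def atInf (F : ℂ → EV ι) (w : ℂ) : EV ι := if w = 0 then 1 else F w⁻¹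

lemma atInf_an {F : ℂ → EV ι} {R : ℝ} (hF : Tendsto F (cocompact ℂ) (𝓝 1))
    (ha : ∀ t : ℂ, R < ‖t‖ → AnalyticAt ℂ F t) (w : ℂ) (hw : R * ‖w‖ < 1) :
    AnalyticAt ℂ (atInf F) w := by
  have key : ∀ z : ℂ, z ≠ 0 → R * ‖z‖ < 1 → AnalyticAt ℂ (atInf F) z := fun z hz h => by
    have h0 : 0 < ‖z‖ := norm_pos_iff.2 hz
    have h1 : AnalyticAt ℂ F z⁻¹ := ha _ (by rw [norm_inv, ← one_div, lt_div_iff₀ h0]; exact h)
    have h2 : AnalyticAt ℂ (fun y : ℂ => F y⁻¹) z :=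
      AnalyticAt.comp (g := F) (f := fun y : ℂ => y⁻¹) h1 (analyticAt_id.inv hz)
    refine h2.congr ?_
    filter_upwards [isOpen_ne.mem_nhds hz] with y hy
    simp [atInf, hy]
  by_cases h0 : w = 0
  · subst h0
    refine analyticAt_of_differentiable_on_punctured_nhds_of_continuousAt ?_ ?_
    · have h1 : ∀ᶠ z in 𝓝 (0 : ℂ), R * ‖z‖ < 1 :=
        (by fun_prop : Continuous fun z : ℂ => R * ‖z‖).continuousAt.eventually_lt
          continuousAt_const (by simp)
      filter_upwards [self_mem_nhdsWithin, nhdsWithin_le_nhds h1] with z hz h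
      exact (key z hz h).differentiableAt
    · rw [← continuousWithinAt_compl_self]
      have h1 : Tendsto (fun z : ℂ => z⁻¹) (𝓝[≠] 0) (cocompact ℂ) := by
        rw [← cobounded_eq_cocompact]
        exact tendsto_inv₀_nhdsNE_zero
      have h2 : atInf F 0 = 1 := by simp [atInf]
      rw [ContinuousWithinAt, h2]
      refine (hF.comp h1).congr' ?_
      filter_upwards [self_mem_nhdsWithin] with z hz
      have hz' : z ≠ 0 := hz
      simp [atInf, hz']
  · exact key w h0 hw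

end CFR

open CFR

theorem sfr (hGR : SGR) (hRH : SRH) (hF1 : SF1) : SFR := by
  classical
  intro r m _
  obtain ⟨a₀, C₁, ha₀, hC₁, hRH⟩ := hRH (Fin r) (m + 1)
  obtain ⟨C₂, hC₂, hF1⟩ := hF1 r m
  refine ⟨C₁ * C₂ * (1 + C₂) + C₂, ?_⟩
  have t1 : ∀ x : ℝ, Tendsto (fun n : ℕ => x / (n : ℝ)) atTop (𝓝 0) :=
    tendsto_const_div_atTop_nhds_zero_nat
  filter_upwards [hF1, eventually_ge_atTop 1, (t1 C₂).eventually_lt_const ha₀,
    (t1 (C₁ * C₂)).eventually_lt_const zero_lt_one] with n hF1 hn h1 h2 c S om hrep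
  obtain ⟨G₀, A, hA, hAi, hAj, hAb, hloc, hcell, hfar, hhub⟩ := hF1 c S om hrep
  obtain ⟨F, -, hFb, hFi, hFG⟩ := hRH A (C₂ / n) hA hAi hAb h1.le
  have hn' : (1 : ℝ) ≤ n := by exact_mod_cast hn
  have hn0 : (0 : ℝ) < n := by linarith
  have hFb' : ∀ t, ‖F t - 1‖ ≤ C₁ * C₂ / n := fun t => by rw [mul_div_assoc]; exact hFb t
  have hFu : ∀ t, IsUnit (F t) := fun t => by
    have := isUnit_one_sub_of_norm_lt_one (x := 1 - F t)
      (by rw [norm_sub_rev]; exact (hFb' t).trans_lt h2)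
    rwa [sub_sub_cancel] at this
  have hFan : ∀ O : Set ℂ, IsOpen O → (∀ t ∈ O, A t = 0) → ∀ t ∈ O, AnalyticAt ℂ F t :=
    fun O hO h t ht => by
      have := hFG O (fun _ => 1) hO contDiffOn_const fun z hz => by
        rw [dbr_one, h z hz, zero_mul]
      simp only [mul_one] at this
      exact this.analyticAt (hO.mem_nhds ht)
  have hanj : ∀ (j : Fin m) (t : ℂ), ‖t - tp j‖ < 1 / 3 → AnalyticAt ℂ F t := fun j t ht =>
    hFan (ball (tp j) (1 / 3)) isOpen_ball (fun z hz => hAj j z (mem_ball_iff_norm.1 hz)) t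
      (mem_ball_iff_norm.2 ht)
  have hani : ∀ t : ℂ, (m : ℝ) + 1 < ‖t‖ → AnalyticAt ℂ F t := fun t ht =>
    hFan {z | (m : ℝ) + 1 < ‖z‖} (isOpen_lt continuous_const continuous_norm)
      (fun z hz => hAi z (le_of_lt hz)) t ht
  obtain ⟨K, hK⟩ : ∃ K : ℂ → EV (Fin r), ∀ t, K t = if ∀ j : Fin m, t ≠ tp j then G₀ t else 1 :=
    ⟨_, fun _ => rfl⟩
  have hK1 : ∀ t, (∀ j : Fin m, t ≠ tp j) → K t = G₀ t := fun t ht => by rw [hK, if_pos ht]
  have hKj : ∀ (j : Fin m) (t : ℂ), ‖t - tp j‖ < 1 / 3 → Orth (K t) := fun j t ht => by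
    rw [hK]
    split_ifs with h
    · obtain ⟨s, hs⟩ := IsAlgClosed.exists_pow_nat_eq (t - tp j) hn
      have hs0 : s ≠ 0 := by
        rintro rfl
        rw [zero_pow (by omega)] at hs
        exact h j (sub_eq_zero.1 hs.symm)
      obtain ⟨g, hg, e⟩ := hcell j s hs0 (by rw [hs]; exact ht)
      rw [hs, add_sub_cancel] at e
      exact orth_left hGR hg ((hGR.rt _ c S (om j) (hrep.ax j)).2 s hs0).1 e
    · exact (hGR.op _).1.orth
  have hnp : ∀ t : ℂ, (m : ℝ) + 1 < ‖t‖ → ∀ j : Fin m, t ≠ tp j := fun t ht j e => by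
    have := norm_tp j
    rw [← e] at this
    linarith
  have hτ : ∀ τ : ℂ, (m : ℝ) + 1 < ‖τ ^ n‖ → τ ^ (4 * m) ≠ 0 := fun τ h => by
    refine pow_ne_zero _ ?_
    rintro rfl
    rw [zero_pow (by omega), norm_zero] at h
    have : (0 : ℝ) ≤ m := Nat.cast_nonneg m
    linarith
  have hKi : ∀ t : ℂ, (m : ℝ) + 1 < ‖t‖ → Orth (K t) := fun t ht => by
    rw [hK1 t (hnp t ht)]
    obtain ⟨τ, hs⟩ := IsAlgClosed.exists_pow_nat_eq t hn
    obtain ⟨g, hg, e⟩ := hfar τ (by rw [hs]; exact ht)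
    rw [hs] at e
    exact orth_left hGR hg ((hGR.dgp _).2 _ (hτ τ (by rw [hs]; exact ht))).1 e
  have hL : ∀ a b t, B (Ring.inverse (F t * K t) a) (Ring.inverse (F t * K t) b) = B a b := by
    intro a b t
    refine Differentiable.apply_eq_of_tendsto_cocompact
      (f := fun t => B (Ring.inverse (F t * K t) a) (Ring.inverse (F t * K t) b)) (fun t₀ => ?_) t ?_
    · by_cases h : ∀ j : Fin m, t₀ ≠ tp j
      · obtain ⟨hu, O, G, hO, ht₀, hG, hGO⟩ := hloc t₀ h
        have hd := (hFG O G hO hG fun z hz => (hGO z hz).1).differentiableAt (hO.mem_nhds ht₀)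
        have hu' : IsUnit (F t₀ * G t₀) := by
          obtain ⟨g, hg, e⟩ := (hGO t₀ ht₀).2
          rw [e]
          exact (hFu t₀).mul (hu.mul ((hGR.op _).2.2.2.2 g hg.orth).1)
        refine (diff_b hGR hd hu' a b).congr_of_eventuallyEq ?_
        have hev : ∀ᶠ z in 𝓝 t₀, ∀ j : Fin m, z ≠ tp j :=
          eventually_all.2 fun j => isOpen_ne.mem_nhds (h j)
        filter_upwards [hO.mem_nhds ht₀, hev] with z hz hz'
        obtain ⟨g, hg, e⟩ := (hGO z hz).2
        rw [e, hK1 z hz', ← mul_assoc, b_inv_mul hGR _ g hg.orth]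
      · push Not at h
        obtain ⟨j, rfl⟩ := h
        refine (diff_b hGR (hanj j _ (by simp)).differentiableAt (hFu _) a b).congr_of_eventuallyEq
          ?_
        filter_upwards [ball_mem_nhds (tp j) (by norm_num : (0 : ℝ) < 1 / 3)] with z hz
        exact b_inv_mul hGR _ _ (hKj j z (mem_ball_iff_norm.1 hz)) a b
    · refine (tend_b hGR hFi a b).congr' ?_
      filter_upwards [(tendsto_norm_cocompact_atTop (E := ℂ)).eventually_gt_atTop ((m : ℝ) + 1)]
        with z hz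
      exact (b_inv_mul hGR _ _ (hKi z hz) a b).symm
  have hOF : ∀ t, Orth (K t) → Orth (F t) := fun t ht =>
    orth_of_inv (hFu t) fun a b => by rw [← b_inv_mul hGR _ _ ht, hL]
  have hC : C₁ * C₂ / n ≤ (C₁ * C₂ * (1 + C₂) + C₂) / n :=
    div_le_div_of_nonneg_right (by nlinarith [mul_nonneg (mul_nonneg hC₁ hC₂) hC₂]) hn0.le
  refine ⟨F, atInf F, fun t M => (∀ j : Fin m, t ≠ tp j) ∧ ∃ g, Op1 g ∧ M = F t * G₀ t * g,
    fun t => (hFb' t).trans hC, fun j t ht => ⟨hanj j t ht, hOF t (hKj j t ht)⟩,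
    fun t ht => ⟨hani t ht, hOF t (hKi t ht), ?_⟩,
    ⟨by simp [atInf], atInf_an hFi hani⟩, ?_, ?_, fun j s hs h => ⟨fun i e => ?_, ?_⟩,
    fun τ h => ⟨hnp _ h, ?_⟩, fun t₀ h h' => ?_⟩
  · have : t ≠ 0 := by
      rintro rfl
      rw [norm_zero] at ht
      have : (0 : ℝ) ≤ m := Nat.cast_nonneg m
      linarith
    simp [atInf, this]
  · rintro t M M' ⟨-, g, hg, rfl⟩ ⟨-, g', hg', rfl⟩
    obtain ⟨k, hk, e, -⟩ := (hGR.op _).2.2.1 g hg
    refine ⟨k * g', (hGR.op _).2.1 _ _ hk hg', ?_⟩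
    rw [mul_assoc _ g, ← mul_assoc g, e, one_mul]
  · rintro t M ⟨ht, g, hg, rfl⟩
    refine (hGR.op _).2.2.2.1 _ _ (orth_of_inv ((hFu t).mul (hloc t ht).1) fun a b => ?_) hg.orth
    rw [← hK1 t ht, hL]
  · have e' : s ^ n = tp i - tp j := by rw [← e]; ring
    have hij : i = j := tp_sep (by rw [← e']; linarith)
    rw [hij, sub_self] at e'
    exact pow_ne_zero n hs e'
  · obtain ⟨g, hg, e⟩ := hcell j s hs h
    exact ⟨g, hg, by rw [e, mul_assoc]⟩
  · obtain ⟨g, hg, e⟩ := hfar τ h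
    exact ⟨g, hg, by rw [e, mul_assoc]⟩
  · obtain ⟨G, hG, hGb⟩ := hhub t₀ h h'
    have hd := hFG _ G isOpen_ball hG fun z hz => (hGb z hz).1
    refine ⟨fun t => F t * G t, fun t ht => ⟨hd.analyticAt (isOpen_ball.mem_nhds ht),
      ⟨fun j e => ?_, ?_⟩, ?_⟩⟩
    · have h3 := h j
      have h4 := mem_ball_iff_norm'.1 ht
      rw [e] at h4
      linarith
    · obtain ⟨g, hg, e⟩ := (hGb t ht).2.1
      exact ⟨g, hg, by rw [mul_assoc, ← e]⟩
    · have h3 := (hGb t ht).2.2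
      have h4 := hFb' t
      have e : F t * G t - 1 = (F t - 1) * (G t - 1) + (F t - 1) + (G t - 1) := by
        rw [sub_mul, mul_sub, mul_one, one_mul]
        abel
      have h5 : C₂ / n ≤ C₂ := div_le_self hC₂ hn'
      have h6 : ‖(F t - 1) * (G t - 1)‖ ≤ C₁ * C₂ / n * C₂ :=
        (norm_mul_le _ _).trans (mul_le_mul h4 (h3.trans h5) (norm_nonneg _) (by positivity))
      have h7 : (C₁ * C₂ * (1 + C₂) + C₂) / n = C₁ * C₂ / n * C₂ + C₁ * C₂ / n + C₂ / n := by ring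
      change ‖F t * G t - 1‖ ≤ _
      rw [e, h7]
      exact norm_add₃_le.trans (by linarith)

end Pool.Agent.MP_fcd29e_an.H15
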